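import Mathlib
import Pool.Agent.Helper77.H3.Cfg
import Pool.Agent.Helper77.H3.Jet
import Pool.Agent.Helper82.H3.Exist
import Pool.Agent.Helper28.N4.Perm
import Pool.Agent.Helper16.N4.NSPerm

/-!
# Threefolds in `P^3 × P^3`: assembly from the last pieces (ASM3)

The last pieces are hypotheses here: `ExD a` (an example), `StartH a` (`start3`), `ChainH a`
(`chain3`), `NSH a` (`ns_cfg3`).
-/

set_option autoImplicit false

namespace Pool.Agent.Helper69.H3

open Pool.Agent.Helper64.HK Pool.Agent.Helper24.HK Pool.Agent.Helper77.H3 Pool.Agent.Helper82.H3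
open Pool.Agent.Helper16.N4 (NP)
open Pool.Agent.Helper77.HK (NS Dp ns_of_map Dp_ne_of_map)
open Pool.Agent.Helper28.HN (I aff)

variable {a : Fin (1 + 1) → Fin (2 + 1)}

/-- An example. -/
def ExD (a : Fin (1 + 1) → Fin (2 + 1)) : Prop :=
  ∃ c0 : Ix a → ℚ, ∃ x0 : Fin 8 → ℚ,
    (∀ i, Eqn3 c0 x0 i = 0) ∧ Pp3 c0 x0 ≠ 0 ∧
    (Mx (cC c0) (ct (lnP (p0 x0) (rr x0)))).det = 1 ∧
    G3 (Bh (cC c0) (ct (lnP (p0 x0) (rr x0))) ^ 2 - Ah (cC c0) (ct (lnP (p0 x0) (rr x0))) *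
      Ch (cC c0) (ct (lnP (p0 x0) (rr x0)))) ≠ 0 ∧
    (Matrix.of fun i j : Fin 8 => MvPolynomial.eval x0 (MvPolynomial.pderiv j
      (Eqn3 (fun e => MvPolynomial.C (c0 e)) MvPolynomial.X i : MvPolynomial (Fin 8) ℚ))).det ≠ 0

/-- `start3`. -/
def StartH (a : Fin (1 + 1) → Fin (2 + 1)) : Prop :=
  ∀ (K : Type) [Field K] [NumberField K] (c : Ix a → K) (x : Fin 8 → K), Cfg3 c x →
    ∃ (L : Type) (_ : Field L) (_ : NumberField L) (_ : Algebra K L) (ζ : L),
      St (fun e => algebraMap K L (c e)) (fun e => algebraMap K L (p0 x e))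
        (algebraMap K L (x 3)) (fun e => algebraMap K L (rr x e)) ζ

/-- `chain3`. -/
def ChainH (a : Fin (1 + 1) → Fin (2 + 1)) : Prop :=
  ∀ (L : Type) [Field L] [NumberField L] (c : Ix a → L) (x : Fin 8 → L) (ζ : L),
    (∀ i, Eqn3 c x i = 0) → Pp3 c x ≠ 0 → St c (p0 x) (x 3) (rr x) ζ → NoPair c

/-- `ns_cfg3`. -/
def NSH (a : Fin (1 + 1) → Fin (2 + 1)) : Prop :=
  ∀ (L : Type) [Field L] [NumberField L] (c : Ix a → L) (x : Fin 8 → L), Cfg3 c x → NS c ∧ Dp c ≠ 0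

theorem map_b3 {S S' : Type*} [CommRing S] [CommRing S'] (f : S →+* S') (c : Ix a → S)
    (x : Fin 8 → S) : (b3 c x).map f = b3 (fun e => f (c e)) (fun j => f (x j)) := by
  unfold b3
  have h := map_bd (Polynomial.mapRingHom f) (c := cC c) (X := ct (lnP (p0 x) (rr x)))
  rw [Polynomial.coe_mapRingHom] at h
  rw [h]
  have h1 := map_cC f c
  have h2 := map_ct (Polynomial.mapRingHom f) (lnP (p0 x) (rr x))
  have h3 := map_lnP f (p0 x) (rr x)
  rw [Polynomial.coe_mapRingHom] at h1 h2 h3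
  rw [h1, h2, h3, map_p0, map_rr]

/-- From an example to configurations for general coefficients. -/
theorem ex3_of (h : ExD a) : Ex3 a := by
  obtain ⟨c0, x0, h1, h2, hD, h3, h4⟩ := h
  have hb := sq_sub (cC c0) (ct (lnP (p0 x0) (rr x0)))
  rw [hD, one_pow, one_mul] at hb
  rw [hb] at h3
  obtain ⟨Δ, hΔ, H⟩ := exists_cfg3_of (fun c x => b3 c x) (fun f c x => map_b3 f c x) c0 x0 h1 h2
    h3 h4
  refine ⟨Δ, hΔ, fun K _ _ c hc => ?_⟩
  obtain ⟨L, i1, i2, i3, x, hE, hP, hG⟩ := H K c hc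
  exact ⟨L, i1, i2, i3, x, ⟨hE, hP, hG⟩⟩

/-- From configurations to `NoPair`. -/
theorem np_of_ex3 (hs : StartH a) (hch : ChainH a) (h : Ex3 a) : NP a := by
  obtain ⟨Δ, hΔ, H⟩ := h
  refine ⟨Δ, hΔ, fun K _ _ c hc => ?_⟩
  obtain ⟨L, _, _, _, x, hx⟩ := H K c hc
  obtain ⟨L', i1, i2, i3, ζ, hst⟩ := hs L (fun e => algebraMap K L (c e)) x hx
  rw [map_p0 (algebraMap L L') x, map_rr (algebraMap L L') x] at hst
  have hE : ∀ i, Eqn3 (fun e => algebraMap L L' (algebraMap K L (c e)))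
      (fun j => algebraMap L L' (x j)) i = 0 := by
    intro i
    rw [← map_Eqn3 (algebraMap L L') (fun e => algebraMap K L (c e)) x i, hx.hE i, map_zero]
  have hP : Pp3 (fun e => algebraMap L L' (algebraMap K L (c e)))
      (fun j => algebraMap L L' (x j)) ≠ 0 := by
    rw [← map_Pp3 (algebraMap L L') (fun e => algebraMap K L (c e)) x]
    exact (map_ne_zero_iff _ (algebraMap L L').injective).2 hx.hP
  have hnp := hch L' (fun e => algebraMap L L' (algebraMap K L (c e)))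
    (fun j => algebraMap L L' (x j)) ζ hE hP hst
  exact ⟨L', i1, i2, ((algebraMap L L').comp (algebraMap K L)).toAlgebra, hnp⟩

/-- The two types are enough. -/
theorem nopair3_of (h1 : NP (![0, 0] : Fin (1 + 1) → Fin (2 + 1)))
    (h2 : NP (![0, 1] : Fin (1 + 1) → Fin (2 + 1))) (a : Fin (1 + 1) → Fin (2 + 1)) : NP a := by
  by_cases h : a 0 = a 1
  · refine Pool.Agent.Helper28.N4.np_perm (Equiv.swap (a 0) 0) ?_
    have : (fun j => (Equiv.swap (a 0) 0) (a j)) = ![0, 0] := by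
      funext j
      fin_cases j
      · simp
      · simp [← h]
    rw [this]
    exact h1
  · obtain ⟨σ, hσ⟩ : ∃ σ : Equiv.Perm (Fin (2 + 1)), σ (a 0) = 0 ∧ σ (a 1) = 1 := by
      generalize a 0 = x at *
      generalize a 1 = y at *
      revert x y
      decide
    refine Pool.Agent.Helper28.N4.np_perm σ ?_
    have : (fun j => σ (a j)) = ![0, 1] := by
      funext j
      fin_cases j
      · exact hσ.1
      · exact hσ.2
    rw [this]
    exact h2

/-- The equation over the chart has no rational root, from configurations. -/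
theorem ns_of_ex3 (hns : NSH a) (h : Ex3 a) :
    ∃ Δ : MvPolynomial (Ix a) ℚ, Δ ≠ 0 ∧
      ∀ (K : Type) [Field K] [NumberField K] (c : Ix a → K), MvPolynomial.aeval c Δ ≠ 0 →
        NS c ∧ Dp c ≠ 0 := by
  obtain ⟨Δ, hΔ, H⟩ := h
  refine ⟨Δ, hΔ, fun K _ _ c hc => ?_⟩
  obtain ⟨L, _, _, _, x, hx⟩ := H K c hc
  have hM : (Mx (fun e => algebraMap K L (c e)) (ct (p0 x))).det ≠ 0 := by
    intro h0
    apply hx.hP
    unfold Pp3
    rw [h0]
    ring
  exact ⟨ns_of_map (algebraMap K L) c (hns L _ x hx).1, Dp_ne_of_map (algebraMap K L) c _ hM⟩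

/-- The two types are enough. -/
theorem ns3_of
    (h1 : ∃ Δ : MvPolynomial (Ix (![0, 0] : Fin (1 + 1) → Fin (2 + 1))) ℚ, Δ ≠ 0 ∧
      ∀ (K : Type) [Field K] [NumberField K] (c : Ix (![0, 0] : Fin (1 + 1) → Fin (2 + 1)) → K),
        MvPolynomial.aeval c Δ ≠ 0 → NS c ∧ Dp c ≠ 0)
    (h2 : ∃ Δ : MvPolynomial (Ix (![0, 1] : Fin (1 + 1) → Fin (2 + 1))) ℚ, Δ ≠ 0 ∧
      ∀ (K : Type) [Field K] [NumberField K] (c : Ix (![0, 1] : Fin (1 + 1) → Fin (2 + 1)) → K),
        MvPolynomial.aeval c Δ ≠ 0 → NS c ∧ Dp c ≠ 0)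
    (a : Fin (1 + 1) → Fin (2 + 1)) :
    ∃ Δ : MvPolynomial (Ix a) ℚ, Δ ≠ 0 ∧
      ∀ (K : Type) [Field K] [NumberField K] (c : Ix a → K), MvPolynomial.aeval c Δ ≠ 0 →
        NS c ∧ Dp c ≠ 0 := by
  by_cases h : a 0 = a 1
  · refine Pool.Agent.Helper16.N4.ns_perm (Equiv.swap (a 0) 0) ?_
    have : (fun j => (Equiv.swap (a 0) 0) (a j)) = ![0, 0] := by
      funext j
      fin_cases j
      · simp
      · simp [← h]
    rw [this]
    exact h1
  · obtain ⟨σ, hσ⟩ : ∃ σ : Equiv.Perm (Fin (2 + 1)), σ (a 0) = 0 ∧ σ (a 1) = 1 := by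
      generalize a 0 = x at *
      generalize a 1 = y at *
      revert x y
      decide
    refine Pool.Agent.Helper16.N4.ns_perm σ ?_
    have : (fun j => σ (a j)) = ![0, 1] := by
      funext j
      fin_cases j
      · exact hσ.1
      · exact hσ.2
    rw [this]
    exact h2

end Pool.Agent.Helper69.H3
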