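import Mathlib
import Pool.Agent.Helper69.H3.Asm
import Pool.Agent.Helper77.H3.Zend
import Pool.Agent.Helper36.H3.Ex1d
import Pool.Agent.Helper21.H3.Ex2

/-!
# Threefolds in `P^3 × P^3`: the two examples and the chain put in
-/

set_option autoImplicit false

namespace Pool.Agent.Helper69.H3

open Pool.Agent.Helper64.HK Pool.Agent.Helper24.HK Pool.Agent.Helper77.H3
open Pool.Agent.Helper16.N4 (NP)
open Pool.Agent.Helper77.HK (NS Dp)

theorem ex3_one : Ex3 ![0, 0] := ex3_of Pool.Agent.Helper36.H3.ex1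

theorem ex3_two : Ex3 ![0, 1] := ex3_of Pool.Agent.Helper21.H3.ex2

theorem chainH (a : Fin (1 + 1) → Fin (2 + 1)) : ChainH a :=
  fun _ _ _ c x ζ hE hP h => Pool.Agent.Helper77.H3.chain3 c x ζ hE hP h

theorem nopair3_of_start (hs : ∀ a, StartH a) (a : Fin (1 + 1) → Fin (2 + 1)) : NP a :=
  nopair3_of (np_of_ex3 (hs _) (chainH _) ex3_one) (np_of_ex3 (hs _) (chainH _) ex3_two) a

theorem ns3_of_ns (hn : ∀ a, NSH a) (a : Fin (1 + 1) → Fin (2 + 1)) :
    ∃ Δ : MvPolynomial (Ix a) ℚ, Δ ≠ 0 ∧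
      ∀ (K : Type) [Field K] [NumberField K] (c : Ix a → K), MvPolynomial.aeval c Δ ≠ 0 →
        NS c ∧ Dp c ≠ 0 :=
  ns3_of (ns_of_ex3 (hn _) ex3_one) (ns_of_ex3 (hn _) ex3_two) a

end Pool.Agent.Helper69.H3
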