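import Mathlib
import Pool.Agent.Helper69.H3.Exs
import Pool.Agent.Helper82.H3.NS

/-!
# Threefolds in `P^3 × P^3`: `ns3`
-/

set_option autoImplicit false

namespace Pool.Agent.Helper69.H3

open Pool.Agent.Helper64.HK Pool.Agent.Helper24.HK Pool.Agent.Helper77.H3
open Pool.Agent.Helper77.HK (NS Dp)

theorem nsH (a : Fin (1 + 1) → Fin (2 + 1)) : NSH a :=
  fun _ _ _ c x h => Pool.Agent.Helper82.H3.ns_cfg3 c x h

theorem ns3 (a : Fin (1 + 1) → Fin (2 + 1)) :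
    ∃ Δ : MvPolynomial (Ix a) ℚ, Δ ≠ 0 ∧
      ∀ (K : Type) [Field K] [NumberField K] (c : Ix a → K), MvPolynomial.aeval c Δ ≠ 0 →
        NS c ∧ Dp c ≠ 0 :=
  ns3_of_ns nsH a

end Pool.Agent.Helper69.H3
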